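import Pool.Agent.helper76.BQ.TDefs

/-!
Module T2a of project bq: symplectic matrices act on the Siegel space.
-/

open Matrix Complex

namespace Pool.Agent.helper76.BQ

theorem T2a_symp {g : ℕ} {R : Type*} [CommRing R] {a b c d : Matrix (Fin g) (Fin g) R}
    (h1 : aᵀ * d - cᵀ * b = 1) : dᵀ * a - bᵀ * c = 1 := by
  have := congrArg Matrix.transpose h1
  simpa [Matrix.transpose_sub, Matrix.transpose_mul] using this

/-- T2a -/
theorem sp_mul {g : ℕ} {A B : Matrix (Fin g ⊕ Fin g) (Fin g ⊕ Fin g) ℤ} (hA : IsSp A) (hB : IsSp B) :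
    IsSp (A * B) := by
  obtain ⟨a1, a2, a3⟩ := hA
  obtain ⟨b1, b2, b3⟩ := hB
  have a4 := T2a_symp a1
  rw [← Matrix.fromBlocks_toBlocks A, ← Matrix.fromBlocks_toBlocks B]
  rw [Matrix.fromBlocks_multiply]
  set a := A.toBlocks₁₁
  set b := A.toBlocks₁₂
  set c := A.toBlocks₂₁
  set d := A.toBlocks₂₂
  set a' := B.toBlocks₁₁
  set b' := B.toBlocks₁₂
  set c' := B.toBlocks₂₁
  set d' := B.toBlocks₂₂
  refine ⟨?_, ?_, ?_⟩
  · simp only [Matrix.toBlocks_fromBlocks₁₁, Matrix.toBlocks_fromBlocks₁₂, Matrix.toBlocks_fromBlocks₂₁,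
      Matrix.toBlocks_fromBlocks₂₂, Matrix.transpose_add, Matrix.transpose_mul]
    have e : (a'ᵀ * aᵀ + c'ᵀ * bᵀ) * (c * b' + d * d') - (a'ᵀ * cᵀ + c'ᵀ * dᵀ) * (a * b' + b * d')
        = a'ᵀ * (aᵀ * c - cᵀ * a) * b' + a'ᵀ * (aᵀ * d - cᵀ * b) * d'
          - c'ᵀ * (dᵀ * a - bᵀ * c) * b' + c'ᵀ * (bᵀ * d - dᵀ * b) * d' := by noncomm_ring
    rw [e, a1, a4, a2, a3]
    simpa using b1
  · simp only [Matrix.toBlocks_fromBlocks₁₁, Matrix.toBlocks_fromBlocks₁₂, Matrix.toBlocks_fromBlocks₂₁,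
      Matrix.toBlocks_fromBlocks₂₂, Matrix.transpose_add, Matrix.transpose_mul]
    have e : (a'ᵀ * aᵀ + c'ᵀ * bᵀ) * (c * a' + d * c') - (a'ᵀ * cᵀ + c'ᵀ * dᵀ) * (a * a' + b * c')
        = a'ᵀ * (aᵀ * c - cᵀ * a) * a' + a'ᵀ * (aᵀ * d - cᵀ * b) * c'
          - c'ᵀ * (dᵀ * a - bᵀ * c) * a' + c'ᵀ * (bᵀ * d - dᵀ * b) * c' := by noncomm_ring
    refine sub_eq_zero.1 ?_
    rw [e, a1, a4, a2, a3]
    simp [b2]
  · simp only [Matrix.toBlocks_fromBlocks₁₁, Matrix.toBlocks_fromBlocks₁₂, Matrix.toBlocks_fromBlocks₂₁,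
      Matrix.toBlocks_fromBlocks₂₂, Matrix.transpose_add, Matrix.transpose_mul]
    have e : (b'ᵀ * aᵀ + d'ᵀ * bᵀ) * (c * b' + d * d') - (b'ᵀ * cᵀ + d'ᵀ * dᵀ) * (a * b' + b * d')
        = b'ᵀ * (aᵀ * c - cᵀ * a) * b' + b'ᵀ * (aᵀ * d - cᵀ * b) * d'
          - d'ᵀ * (dᵀ * a - bᵀ * c) * b' + d'ᵀ * (bᵀ * d - dᵀ * b) * d' := by noncomm_ring
    refine sub_eq_zero.1 ?_
    rw [e, a1, a4, a2, a3]
    simp [b3]

/-- complex form of the symplectic relations -/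
theorem T2a_rel {g : ℕ} {M : Matrix (Fin g ⊕ Fin g) (Fin g ⊕ Fin g) ℤ} (hM : IsSp M) :
    (toC M.toBlocks₁₁)ᵀ * toC M.toBlocks₂₂ - (toC M.toBlocks₂₁)ᵀ * toC M.toBlocks₁₂ = 1 ∧
    (toC M.toBlocks₁₁)ᵀ * toC M.toBlocks₂₁ = (toC M.toBlocks₂₁)ᵀ * toC M.toBlocks₁₁ ∧
    (toC M.toBlocks₁₂)ᵀ * toC M.toBlocks₂₂ = (toC M.toBlocks₂₂)ᵀ * toC M.toBlocks₁₂ := by
  have key : ∀ X Y : Matrix (Fin g) (Fin g) ℤ, toC (Xᵀ * Y) = (toC X)ᵀ * toC Y := by
    intro X Y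
    unfold toC
    rw [Matrix.map_mul, Matrix.transpose_map]
  obtain ⟨h1, h2, h3⟩ := hM
  refine ⟨?_, ?_, ?_⟩
  · rw [← key, ← key]
    have e := congrArg (toC (R := ℤ)) h1
    have e1 : toC (M.toBlocks₁₁ᵀ * M.toBlocks₂₂ - M.toBlocks₂₁ᵀ * M.toBlocks₁₂)
        = toC (M.toBlocks₁₁ᵀ * M.toBlocks₂₂) - toC (M.toBlocks₂₁ᵀ * M.toBlocks₁₂) := by
      unfold toC
      rw [Matrix.map_sub _ (fun x y => map_sub _ x y)]
    rw [e1] at e
    rw [e]
    unfold toC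
    rw [Matrix.map_one _ (map_zero _) (map_one _)]
  · rw [← key, ← key, h2]
  · rw [← key, ← key, h3]

theorem T2a_conjC {g : ℕ} (X : Matrix (Fin g) (Fin g) ℤ) : (toC X)ᴴ = (toC X)ᵀ := by
  unfold toC
  ext i j
  simp [Matrix.conjTranspose_apply]

/-- the real part of the hermitian form of a Siegel matrix is positive -/
theorem T2a_pos {g : ℕ} {Z : Matrix (Fin g) (Fin g) ℂ} (hZ : IsSiegel Z) {v : Fin g → ℂ} (hv : v ≠ 0) :
    0 < (star v ⬝ᵥ (Z *ᵥ v)).re := by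
  obtain ⟨hs, hp⟩ := hZ
  have hsij : ∀ i j, Z j i = Z i j := fun i j => by
    have := congrFun (congrFun hs i) j
    simpa [Matrix.transpose_apply] using this
  have e : (star v ⬝ᵥ (Z *ᵥ v)).re = (∑ i, ∑ j, (Z i j).re * (v i).re * (v j).re)
      + (∑ i, ∑ j, (Z i j).re * (v i).im * (v j).im)
      - (∑ i, ∑ j, (Z i j).im * ((v i).re * (v j).im)) + (∑ i, ∑ j, (Z i j).im * ((v i).im * (v j).re)) := by
    simp only [dotProduct, Matrix.mulVec, Pi.star_apply, Complex.re_sum, Finset.mul_sum,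
      ← Finset.sum_add_distrib, ← Finset.sum_sub_distrib]
    refine Finset.sum_congr rfl fun i _ => Finset.sum_congr rfl fun j _ => ?_
    simp [Complex.mul_re, Complex.mul_im]
    ring
  have e2 : (∑ i, ∑ j, (Z i j).im * ((v i).im * (v j).re))
      = ∑ i, ∑ j, (Z i j).im * ((v i).re * (v j).im) := by
    rw [Finset.sum_comm]
    refine Finset.sum_congr rfl fun i _ => Finset.sum_congr rfl fun j _ => ?_
    rw [hsij i j]
    ring
  rw [e, e2, sub_add_cancel]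
  have nn : ∀ x : Fin g → ℝ, 0 ≤ ∑ i, ∑ j, (Z i j).re * x i * x j := by
    intro x
    by_cases hx : x = 0
    · subst hx; simp
    · exact (hp x hx).le
  by_cases hr : (fun i => (v i).re) = 0
  · have hi : (fun i => (v i).im) ≠ 0 := by
      intro hi
      apply hv
      funext i
      apply Complex.ext
      · simpa using congrFun hr i
      · simpa using congrFun hi i
    have := hp _ hi
    have h2 := nn (fun i => (v i).re)
    linarith
  · have := hp _ hr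
    have h2 := nn (fun i => (v i).im)
    linarith

/-- the hermitian identity -/
theorem T2a_herm {g : ℕ} {M : Matrix (Fin g ⊕ Fin g) (Fin g ⊕ Fin g) ℤ} (hM : IsSp M)
    (Z : Matrix (Fin g) (Fin g) ℂ) :
    (den M Z)ᴴ * num M Z + (num M Z)ᴴ * den M Z = Z + Zᴴ := by
  obtain ⟨h1, h2, h3⟩ := T2a_rel hM
  have h4 := T2a_symp h1
  unfold den num
  set a := toC M.toBlocks₁₁ with ha
  set b := toC M.toBlocks₁₂ with hb
  set c := toC M.toBlocks₂₁ with hc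
  set d := toC M.toBlocks₂₂ with hd
  have ca : aᴴ = aᵀ := T2a_conjC _
  have cb : bᴴ = bᵀ := T2a_conjC _
  have cc : cᴴ = cᵀ := T2a_conjC _
  have cd : dᴴ = dᵀ := T2a_conjC _
  simp only [Matrix.conjTranspose_sub, Matrix.conjTranspose_add, Matrix.conjTranspose_smul,
    Matrix.conjTranspose_mul, ca, cb, cc, cd]
  have sI : star I = - I := by simp
  rw [sI]
  have II : ∀ X : Matrix (Fin g) (Fin g) ℂ, I • I • X = - X := by
    intro X
    rw [smul_smul, I_mul_I, neg_one_smul]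
  have e : (aᵀ - -I • (Zᴴ * bᵀ)) * (d * Z + I • c) + (Zᴴ * dᵀ + -I • cᵀ) * (a - I • (b * Z))
      = (aᵀ * d - cᵀ * b) * Z + Zᴴ * (dᵀ * a - bᵀ * c) + I • (aᵀ * c - cᵀ * a)
        + I • (Zᴴ * (bᵀ * d - dᵀ * b) * Z) := by
    simp only [Matrix.sub_mul, Matrix.mul_sub, Matrix.add_mul, Matrix.mul_add, neg_smul, Matrix.smul_mul,
      Matrix.mul_smul, sub_neg_eq_add, smul_sub, smul_add, Matrix.neg_mul, Matrix.mul_neg, II, smul_neg,
      Matrix.mul_assoc, neg_neg]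
    abel
  rw [e, h1, h4, h2, h3]
  simp

theorem T2a_re {g : ℕ} {M : Matrix (Fin g ⊕ Fin g) (Fin g ⊕ Fin g) ℤ} (hM : IsSp M)
    (Z : Matrix (Fin g) (Fin g) ℂ) (v : Fin g → ℂ) :
    (star (den M Z *ᵥ v) ⬝ᵥ (num M Z *ᵥ v)).re = (star v ⬝ᵥ (Z *ᵥ v)).re := by
  have key : ∀ (P Q : Matrix (Fin g) (Fin g) ℂ), star (P *ᵥ v) ⬝ᵥ (Q *ᵥ v) = star v ⬝ᵥ ((Pᴴ * Q) *ᵥ v) := by
    intro P Q
    rw [Matrix.star_mulVec, ← Matrix.mulVec_mulVec, Matrix.dotProduct_mulVec (star v) Pᴴ]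
  have hh := congrArg (fun X : Matrix (Fin g) (Fin g) ℂ => star v ⬝ᵥ (X *ᵥ v)) (T2a_herm hM Z)
  simp only [Matrix.add_mulVec, dotProduct_add] at hh
  have s1 : star v ⬝ᵥ (((num M Z)ᴴ * den M Z) *ᵥ v) = star (star v ⬝ᵥ (((den M Z)ᴴ * num M Z) *ᵥ v)) := by
    rw [← key, ← key]
    exact Matrix.star_dotProduct _ _
  have s2 : star v ⬝ᵥ (Zᴴ *ᵥ v) = star (star v ⬝ᵥ (Z *ᵥ v)) := by
    have := key Z 1
    rw [Matrix.one_mulVec, Matrix.mul_one] at this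
    rw [← this]
    exact Matrix.star_dotProduct _ _
  rw [s1, s2] at hh
  rw [key]
  have := congrArg Complex.re hh
  simp at this
  linarith

/-- T2b -/
theorem den_det_ne {g : ℕ} {M : Matrix (Fin g ⊕ Fin g) (Fin g ⊕ Fin g) ℤ} (hM : IsSp M)
    {Z : Matrix (Fin g) (Fin g) ℂ} (hZ : IsSiegel Z) : (den M Z).det ≠ 0 := by
  intro h0
  obtain ⟨v, hv, h⟩ := Matrix.exists_mulVec_eq_zero_iff.2 h0
  have h1 := T2a_re hM Z v
  have h2 := T2a_pos hZ hv
  rw [h] at h1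
  simp at h1
  linarith

/-- T2c -/
theorem act_siegel {g : ℕ} {M : Matrix (Fin g ⊕ Fin g) (Fin g ⊕ Fin g) ℤ} (hM : IsSp M)
    {Z : Matrix (Fin g) (Fin g) ℂ} (hZ : IsSiegel Z) : IsSiegel (act M Z) := by
  have hd := den_det_ne hM hZ
  have hu : IsUnit (den M Z).det := isUnit_iff_ne_zero.2 hd
  have hs : (den M Z)ᵀ * num M Z = (num M Z)ᵀ * den M Z := by
    obtain ⟨h1, h2, h3⟩ := T2a_rel hM
    have h4 := T2a_symp h1
    unfold den num
    set a := toC M.toBlocks₁₁ with ha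
    set b := toC M.toBlocks₁₂ with hb
    set c := toC M.toBlocks₂₁ with hc
    set d := toC M.toBlocks₂₂ with hd
    simp only [Matrix.transpose_sub, Matrix.transpose_add, Matrix.transpose_smul,
      Matrix.transpose_mul, hZ.1]
    refine sub_eq_zero.1 ?_
    have e : (aᵀ - I • (Z * bᵀ)) * (d * Z + I • c) - (Z * dᵀ + I • cᵀ) * (a - I • (b * Z))
        = (aᵀ * d - cᵀ * b) * Z - Z * (dᵀ * a - bᵀ * c) + I • (aᵀ * c - cᵀ * a)
          - I • (Z * (bᵀ * d - dᵀ * b) * Z) := by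
      have II : ∀ X : Matrix (Fin g) (Fin g) ℂ, I • I • X = - X := by
        intro X
        rw [smul_smul, I_mul_I, neg_one_smul]
      simp only [Matrix.sub_mul, Matrix.mul_sub, Matrix.add_mul, Matrix.mul_add, Matrix.smul_mul,
        Matrix.mul_smul, smul_sub, smul_add, II, Matrix.mul_assoc]
      abel
    rw [e, h1, h4, h2, h3]
    simp
  constructor
  · unfold act
    rw [Matrix.transpose_mul, Matrix.transpose_nonsing_inv]
    have ht : IsUnit ((den M Z)ᵀ).det := by rwa [Matrix.det_transpose]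
    calc ((den M Z)ᵀ)⁻¹ * (num M Z)ᵀ
        = ((den M Z)ᵀ)⁻¹ * ((num M Z)ᵀ * den M Z) * (den M Z)⁻¹ := by
          rw [Matrix.mul_assoc, Matrix.mul_nonsing_inv_cancel_right _ _ hu]
      _ = ((den M Z)ᵀ)⁻¹ * ((den M Z)ᵀ * num M Z) * (den M Z)⁻¹ := by rw [hs]
      _ = num M Z * (den M Z)⁻¹ := by rw [Matrix.nonsing_inv_mul_cancel_left _ _ ht]
  · intro x hx
    set w : Fin g → ℂ := fun i => (x i : ℂ) with hw
    have hw0 : w ≠ 0 := by
      intro h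
      apply hx
      funext i
      have := congrFun h i
      simpa [hw] using this
    set v := (den M Z)⁻¹ *ᵥ w with hv
    have hdv : den M Z *ᵥ v = w := by
      rw [hv, Matrix.mulVec_mulVec, Matrix.mul_nonsing_inv _ hu, Matrix.one_mulVec]
    have hv0 : v ≠ 0 := by
      intro h
      rw [h, Matrix.mulVec_zero] at hdv
      exact hw0 hdv.symm
    have h1 := T2a_re hM Z v
    have h2 := T2a_pos hZ hv0
    rw [← h1, hdv] at h2
    have h3 : num M Z *ᵥ v = act M Z *ᵥ w := by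
      rw [hv, Matrix.mulVec_mulVec]; rfl
    rw [h3] at h2
    refine lt_of_lt_of_eq h2 ?_
    simp only [dotProduct, Matrix.mulVec, Pi.star_apply, Complex.re_sum, Finset.mul_sum, hw]
    refine Finset.sum_congr rfl fun i _ => Finset.sum_congr rfl fun j _ => ?_
    simp
    ring

end Pool.Agent.helper76.BQ
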